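import Pool.Agent.H359.KX.Small
import Pool.Graph.R_seed8.Results.MP_e9d015_al.FrobeniusSystems

/-!
# The free product of two groups of order two is the infinite dihedral group
-/

set_option autoImplicit false

namespace Pool.Agent.H359.KX

open Monoid (Coprod)
open DihedralGroup (r sr)

theorem two_elts {A : Type} [Group A] (h : Nat.card A = 2) {a : A} (ha : a ≠ 1) (y : A) :
    y = 1 ∨ y = a := by
  obtain ⟨b, -, hb⟩ := (Nat.card_eq_two_iff' (1 : A)).1 h
  by_cases hy : y = 1
  · exact Or.inl hy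
  · exact Or.inr ((hb y hy).trans (hb a ha).symm)

/-- an element of `ZMod 0` as an integer -/
def tz (i : ZMod 0) : ℤ := i

theorem tz_add (i j : ZMod 0) : tz (i + j) = tz i + tz j := rfl
theorem tz_sub (i j : ZMod 0) : tz (i - j) = tz i - tz j := rfl

/-- homomorphisms from the infinite dihedral group -/
def fromDih {P : Type} [Group P] (σ ρ : P) (h1 : σ * σ = 1) (h2 : σ * ρ * σ = ρ⁻¹) :
    DihedralGroup 0 →* P where
  toFun x := match x with
    | r i => ρ ^ tz i
    | sr i => σ * ρ ^ tz i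
  map_one' := by
    show ρ ^ (0 : ℤ) = 1
    exact zpow_zero ρ
  map_mul' := by
    have hs : σ⁻¹ = σ := inv_eq_of_mul_eq_one_left h1
    have h3 : ∀ i : ℤ, ρ ^ i * σ = σ * ρ ^ (-i) := by
      intro i
      have e : (σ * ρ * σ⁻¹) ^ i = σ * ρ ^ i * σ⁻¹ := conj_zpow
      rw [hs, h2, inv_zpow'] at e
      rw [e]
      have : σ * (σ * ρ ^ i * σ) = (σ * σ) * ρ ^ i * σ := by group
      rw [this, h1, one_mul]
    rintro (i | i) (j | j)
    · show ρ ^ tz (i + j) = ρ ^ tz i * ρ ^ tz j
      rw [tz_add, zpow_add]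
    · show σ * ρ ^ tz (j - i) = ρ ^ tz i * (σ * ρ ^ tz j)
      rw [← mul_assoc, h3, mul_assoc, ← zpow_add, tz_sub]
      congr 2
      ring
    · show σ * ρ ^ tz (i + j) = σ * ρ ^ tz i * ρ ^ tz j
      rw [mul_assoc, ← zpow_add, tz_add]
    · show ρ ^ tz (j - i) = σ * ρ ^ tz i * (σ * ρ ^ tz j)
      have : σ * ρ ^ tz i * (σ * ρ ^ tz j) = σ * (ρ ^ tz i * σ) * ρ ^ tz j := by
        simp only [mul_assoc]
      rw [this, h3, ← mul_assoc, h1, one_mul, ← zpow_add, tz_sub]
      congr 1
      ring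

theorem dihedral (A B : Type) [Group A] [Group B] (hA : Nat.card A = 2) (hB : Nat.card B = 2) :
    Nonempty (Coprod A B ≃* DihedralGroup 0) := by
  haveI : Fact (Nat.Prime 2) := ⟨Nat.prime_two⟩
  have hsr : ∀ i : ZMod 0, (sr i : DihedralGroup 0) ^ 2 = 1 := fun i => by
    rw [pow_two, DihedralGroup.sr_mul_self]
  obtain ⟨jA, a, ha⟩ := exists_hom (A := A) 2 hA (sr 0 : DihedralGroup 0) (hsr 0)
  obtain ⟨jB, b, hb⟩ := exists_hom (A := B) 2 hB (sr 1 : DihedralGroup 0) (hsr 1)
  have hne : ∀ i : ZMod 0, (sr i : DihedralGroup 0) ≠ 1 := by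
    intro i h
    cases h
  have ha1 : a ≠ 1 := by
    rintro rfl
    rw [map_one] at ha
    exact hne 0 ha.symm
  have hb1 : b ≠ 1 := by
    rintro rfl
    rw [map_one] at hb
    exact hne 1 hb.symm
  have sq : ∀ (C : Type) [Group C] (c : C), Nat.card C = 2 → c ≠ 1 → c * c = 1 := by
    intro C _ c h hc
    rcases two_elts h hc (c * c) with e | e
    · exact e
    · exact absurd (mul_eq_left.1 e) hc
  have ha2 := sq A a hA ha1
  have hb2 := sq B b hB hb1
  set α : Coprod A B := Coprod.inl a with hα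
  set β : Coprod A B := Coprod.inr b with hβ
  have hα2 : α * α = 1 := by rw [hα, ← map_mul, ha2, map_one]
  have hβ2 : β * β = 1 := by rw [hβ, ← map_mul, hb2, map_one]
  have hrel : α * (α * β) * α = (α * β)⁻¹ := by
    have e1 : α⁻¹ = α := inv_eq_of_mul_eq_one_left hα2
    have e2 : β⁻¹ = β := inv_eq_of_mul_eq_one_left hβ2
    rw [← mul_assoc, hα2, one_mul, mul_inv_rev, e1, e2]
  let f : Coprod A B →* DihedralGroup 0 := Coprod.lift jA jB
  let g : DihedralGroup 0 →* Coprod A B := fromDih α (α * β) hα2 hrel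
  have fα : f α = sr 0 := by
    show Coprod.lift jA jB (Coprod.inl a) = _
    rw [Coprod.lift_apply_inl, ha]
  have fβ : f β = sr 1 := by
    show Coprod.lift jA jB (Coprod.inr b) = _
    rw [Coprod.lift_apply_inr, hb]
  have g0 : g (sr 0) = α := by
    show α * (α * β) ^ (0 : ℤ) = α
    rw [zpow_zero, mul_one]
  have g1 : g (sr 1) = β := by
    show α * (α * β) ^ (1 : ℤ) = β
    rw [zpow_one, ← mul_assoc, hα2, one_mul]
  have h1 : g.comp f = MonoidHom.id _ := by
    apply Coprod.hom_ext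
    · ext y
      rcases two_elts hA ha1 y with rfl | rfl
      · simp
      · show g (f α) = α
        rw [fα, g0]
    · ext y
      rcases two_elts hB hb1 y with rfl | rfl
      · simp
      · show g (f β) = β
        rw [fβ, g1]
  have h2 : f.comp g = MonoidHom.id _ := by
    have fρ : ∀ i : ℤ, f ((α * β) ^ i) = r (i : ZMod 0) := by
      intro i
      rw [map_zpow, map_mul, fα, fβ, DihedralGroup.sr_mul_sr, sub_zero]
      exact DihedralGroup.r_one_zpow i
    ext x
    rcases x with i | i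
    · show f ((α * β) ^ tz i) = r i
      exact fρ (tz i)
    · show f (α * (α * β) ^ tz i) = sr i
      rw [map_mul, fα, fρ]
      show sr 0 * r i = sr i
      rw [DihedralGroup.sr_mul_r, zero_add]
  exact ⟨MonoidHom.toMulEquiv f g h1 h2⟩

end Pool.Agent.H359.KX
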