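import Pool.Agent.H359.KX.Search

/-!
# The equation `t t x t⁻¹ u = 1` and normal subgroups with a map to the free group
-/

set_option autoImplicit false

namespace Pool.Agent.H359.KX

open FreeGroup hiding map_mul map_inv map_one
open Pool.Agent.Helper158.Stall
open Pool.Agent.Y870.KV (ps ps_comp)

/-- `1` or a conjugate of a letter or of the inverse of a letter -/
def Lett (g : FreeGroup (Fin 2)) : Prop :=
  ∃ (c : FreeGroup (Fin 2)) (o : Option (Fin 2 × Bool)), g = c * mk (optW o) * c⁻¹

theorem Lett.conj {g : FreeGroup (Fin 2)} (h : Lett g) (d : FreeGroup (Fin 2)) :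
    Lett (d * g * d⁻¹) := by
  obtain ⟨c, o, rfl⟩ := h
  exact ⟨d * c, o, by group⟩

theorem Lett.one : Lett 1 := ⟨1, none, by
  show (1 : FreeGroup (Fin 2)) = 1 * 1 * 1⁻¹
  group⟩

theorem Lett.inv {g : FreeGroup (Fin 2)} (h : Lett g) : Lett g⁻¹ := by
  obtain ⟨c, o, rfl⟩ := h
  cases o with
  | none =>
    have : (mk (optW (none : Option (Fin 2 × Bool))) : FreeGroup (Fin 2)) = 1 := rfl
    rw [this]
    have e : (c * 1 * c⁻¹)⁻¹ = 1 := by group
    rw [e]
    exact Lett.one
  | some x =>
    refine ⟨c, some (bar x), ?_⟩
    have h1 : (mk (optW (some (bar x))) : FreeGroup (Fin 2)) = (mk (optW (some x)))⁻¹ :=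
      mk_bar x
    rw [h1]
    group

theorem Lett.of (i : Fin 2) : Lett (FreeGroup.of i) := ⟨1, some (i, true), by
  show (FreeGroup.of i : FreeGroup (Fin 2)) = 1 * FreeGroup.of i * 1⁻¹
  group⟩

/-- `gw` is not a product of at most ten conjugates of letters -/
theorem not_prod (T : List (FreeGroup (Fin 2))) (hT : ∀ g ∈ T, Lett g) (hl : T.length ≤ 10) :
    T.prod ≠ mk gw := by
  intro h
  have key : ∀ T : List (FreeGroup (Fin 2)), (∀ g ∈ T, Lett g) →
      ∃ S : List (FreeGroup (Fin 2) × Option (Fin 2 × Bool)),
        (S.map (fun p => p.1 * mk (optW p.2) * p.1⁻¹)).prod = T.prod ∧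
        Multiset.card (S.map (fun p => optM p.2)).sum ≤ T.length := by
    intro T
    induction T with
    | nil => exact fun _ => ⟨[], rfl, by simp⟩
    | cons g T ih =>
      intro hT
      obtain ⟨S, h1, h2⟩ := ih (fun g hg => hT g (List.mem_cons_of_mem _ hg))
      obtain ⟨c, o, hco⟩ := hT g (List.mem_cons_self ..)
      refine ⟨(c, o) :: S, by rw [List.map_cons, List.prod_cons, h1, List.prod_cons, ← hco], ?_⟩
      rw [List.map_cons, List.sum_cons, Multiset.card_add, List.length_cons]
      have h3 : Multiset.card (optM o) ≤ 1 := by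
        cases o <;> simp [optM]
      simp only at h3 ⊢
      omega
  obtain ⟨S, h1, h2⟩ := key T hT
  have h3 := deletion S ((h1.trans h).symm)
  exact not_good10 _ (h2.trans hl) h3

/-! ### the identity in a group with `t t x t⁻¹ u = 1` -/

/-- ten letters and the conjugating words -/
def dat : List ((Fin 2 × Bool) × List (Fin 2 × Bool)) := [
  ((0, true), [(1, false), (1, false), (1, false), (1, false), (1, false)]),
  ((0, false), [(1, false), (1, false), (1, false), (1, false), (0, false), (0, false),
    (0, false), (0, false), (1, false)]),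
  ((1, false), [(1, false), (1, false), (1, false), (1, false), (0, false), (0, false),
    (0, false), (1, true), (0, true)]),
  ((1, false), [(1, false), (1, false), (1, false), (1, false), (0, false), (0, false),
    (1, true), (0, true)]),
  ((0, false), [(1, false), (1, false), (1, false), (1, false), (0, false), (1, true),
    (0, false), (1, false)]),
  ((1, false), [(1, false), (1, false), (1, false), (1, false), (0, false), (1, true),
    (1, true), (0, true)]),
  ((0, false), [(1, false), (1, false), (1, false), (0, false), (1, false)]),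
  ((0, false), [(1, false), (1, false), (0, false), (1, false)]),
  ((0, false), [(1, false), (0, false), (1, false)]),
  ((1, false), [(0, true)])]

/-- the image of a letter under `x ↦ z u z u⁻¹ z⁻¹`, `u ↦ u` -/
def phl : Fin 2 × Bool → List (Fin 2 × Bool)
  | (0, true) => [(0, true), (1, true), (0, true), (1, false), (0, false)]
  | (0, false) => [(0, true), (1, true), (0, false), (1, false), (0, false)]
  | (1, b) => [(1, b)]

theorem ident_words : reduce (gw.flatMap phl) =
    reduce (dat.flatMap fun p => p.2 ++ p.1 :: invRev p.2) := by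
  decide +kernel

theorem mk_flatMap {β : Type} (f : β → List (Fin 2 × Bool)) (L : List β) :
    mk (L.flatMap f) = (L.map (fun b => mk (f b))).prod := by
  induction L with
  | nil => rfl
  | cons b L ih =>
    rw [List.flatMap_cons, List.map_cons, List.prod_cons, ← ih, mul_mk]

theorem identity : ((gw.map (fun b => mk (phl b))).prod : FreeGroup (Fin 2)) =
    (dat.map (fun p => mk p.2 * mk [p.1] * (mk p.2)⁻¹)).prod := by
  rw [← mk_flatMap, reduce.exact ident_words, mk_flatMap]
  congr 1

/-- the `11 + s` elements: the inverse of the word `gw`, ten letters and `s` trivial elements -/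
def el {G : Type*} [Group G] (x u : G) (s : ℕ) : List G :=
  (ps x u (mk gw))⁻¹ :: (dat.map (fun p => ps x u (mk [p.1])) ++ List.replicate s 1)

theorem el_length {G : Type*} [Group G] (x u : G) (s : ℕ) : (el x u s).length = 11 + s := by
  rw [el, List.length_cons, List.length_append, List.length_map, List.length_replicate]
  show 10 + s + 1 = _
  omega

theorem el_map {G H : Type*} [Group G] [Group H] (f : G →* H) (x u : G) (s : ℕ) :
    (el x u s).map f = el (f x) (f u) s := by
  rw [el, el, List.map_cons, List.map_append, List.map_map, List.map_replicate, map_inv, ps_comp,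
    map_one]
  congr 2
  apply List.map_congr_left
  intro p _
  exact ps_comp _ _ _ _

theorem mk_eq_prod (L : List (Fin 2 × Bool)) :
    (mk L : FreeGroup (Fin 2)) = (L.map (fun b => mk [b])).prod := by
  induction L with
  | nil => rfl
  | cons b L ih => rw [mk_cons, List.map_cons, List.prod_cons, ih]

theorem in_H {H : Type*} [Group H] {X U T : H} (h : T * T * X * T⁻¹ * U = 1) (s : ℕ) :
    ∃ L : List (H × H), L.map Prod.snd = el X U s ∧
      (L.map fun p => p.1 * p.2 * p.1⁻¹).prod = 1 := by
  set z : H := T * X * T⁻¹ with hz
  have hT : T⁻¹ = z * U := by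
    have h2 : T * (z * U) = 1 := by
      rw [hz, ← h]; group
    exact (eq_inv_of_mul_eq_one_right h2).symm
  have hX : X = (z * U) * z * (z * U)⁻¹ := by
    rw [← hT, hz]; group
  let tt : Fin 2 × Bool → H := fun b => if b.1 = 0 then T else 1
  have m0 : (mk [((0 : Fin 2), false)] : FreeGroup (Fin 2)) = (of 0)⁻¹ := by
    rw [of, inv_mk]; rfl
  have m1 : (mk [((1 : Fin 2), false)] : FreeGroup (Fin 2)) = (of 1)⁻¹ := by
    rw [of, inv_mk]; rfl
  have p0 : ∀ A B : H, ps A B (of 0) = A := fun A B => by
    rw [Pool.Agent.Y870.KV.ps, FreeGroup.lift_apply_of]; rfl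
  have p1 : ∀ A B : H, ps A B (of 1) = B := fun A B => by
    rw [Pool.Agent.Y870.KV.ps, FreeGroup.lift_apply_of]; rfl
  have letter : ∀ b : Fin 2 × Bool, ps z U (mk [b]) = tt b * ps X U (mk [b]) * (tt b)⁻¹ := by
    rintro ⟨i, c⟩
    fin_cases i
    · cases c with
      | true =>
        show ps z U (of 0) = T * ps X U (of 0) * T⁻¹
        rw [p0, p0, hz]
      | false =>
        show ps z U (mk [(0, false)]) = T * ps X U (mk [(0, false)]) * T⁻¹
        rw [m0, map_inv, map_inv, p0, p0, hz]
        group
    · cases c with
      | true =>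
        show ps z U (of 1) = 1 * ps X U (of 1) * 1⁻¹
        rw [p1, p1]
        group
      | false =>
        show ps z U (mk [(1, false)]) = 1 * ps X U (mk [(1, false)]) * 1⁻¹
        rw [m1, map_inv, map_inv, p1, p1]
        group
  have sub : ∀ b : Fin 2 × Bool, ps z U (mk (phl b)) = ps X U (mk [b]) := by
    rintro ⟨i, c⟩
    have e : ∀ b : Bool, (mk [((0 : Fin 2), true), (1, true), (0, b), (1, false), (0, false)] :
        FreeGroup (Fin 2)) = of 0 * of 1 * mk [(0, b)] * (of 0 * of 1)⁻¹ := by
      intro b
      rw [of, of, mul_mk, mul_mk, inv_mk, mul_mk]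
      rfl
    fin_cases i
    · cases c with
      | true =>
        show ps z U (mk [(0, true), (1, true), (0, true), (1, false), (0, false)]) =
          ps X U (of 0)
        rw [e, map_mul, map_mul, map_inv, map_mul, p0, p1, p0]
        show z * U * ps z U (of 0) * (z * U)⁻¹ = X
        rw [p0]
        exact hX.symm
      | false =>
        show ps z U (mk [(0, true), (1, true), (0, false), (1, false), (0, false)]) =
          ps X U (mk [(0, false)])
        rw [e, map_mul, map_mul, map_inv, map_mul, m0, map_inv, map_inv, p0, p1, p0]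
        conv_rhs => rw [hX]
        group
    · rfl
  have key : ps X U (mk gw) = (dat.map (fun p => (ps z U (mk p.2) * tt p.1) *
      ps X U (mk [p.1]) * (ps z U (mk p.2) * tt p.1)⁻¹)).prod := by
    have h1 : ps X U (mk gw) = ps z U ((gw.map (fun b => mk (phl b))).prod) := by
      rw [mk_eq_prod, map_list_prod, map_list_prod, List.map_map, List.map_map]
      congr 1
      apply List.map_congr_left
      intro b _
      exact (sub b).symm
    rw [h1, identity, map_list_prod, List.map_map]
    congr 1
    apply List.map_congr_left
    intro p _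
    show ps z U (mk p.2 * mk [p.1] * (mk p.2)⁻¹) = _
    rw [map_mul, map_mul, map_inv, letter]
    group
  refine ⟨(1, (ps X U (mk gw))⁻¹) :: (dat.map (fun p => (ps z U (mk p.2) * tt p.1,
    ps X U (mk [p.1]))) ++ List.replicate s (1, 1)), ?_, ?_⟩
  · rw [List.map_cons, el, List.map_append, List.map_map, List.map_replicate]
    rfl
  · rw [List.map_cons, List.prod_cons, List.map_append, List.prod_append, List.map_map,
      List.map_replicate, List.prod_replicate]
    have h2 : (dat.map ((fun p : H × H => p.1 * p.2 * p.1⁻¹) ∘ fun p =>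
        (ps z U (mk p.2) * tt p.1, ps X U (mk [p.1])))).prod = ps X U (mk gw) := by
      rw [key]
      rfl
    rw [h2]
    simp

/-- the deletion argument -/
theorem not_in {G : Type*} [Group G] (N : Subgroup G) [N.Normal] (ρ : N →* FreeGroup (Fin 2))
    {x u : N} (hx : ρ x = of 0) (hu : ρ u = of 1)
    (hcx : ∀ (g : G) (y : N), (y : G) = g * x * g⁻¹ → Lett (ρ y))
    (hcu : ∀ (g : G) (y : N), (y : G) = g * u * g⁻¹ → Lett (ρ y))
    (s : ℕ) (L : List (G × G)) (h1 : L.map Prod.snd = el (x : G) (u : G) s)
    (h2 : (L.map fun p => p.1 * p.2 * p.1⁻¹).prod = 1) : False := by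
  have hρ : ∀ z : FreeGroup (Fin 2), ρ (ps x u z) = z := by
    intro z
    rw [ps_comp, hx, hu]
    have : ps (of 0 : FreeGroup (Fin 2)) (of 1) = MonoidHom.id _ := by
      apply FreeGroup.ext_hom
      intro i
      show ps (of 0 : FreeGroup (Fin 2)) (of 1) (of i) = of i
      rw [Pool.Agent.Y870.KV.ps, FreeGroup.lift_apply_of]
      fin_cases i <;> rfl
    exact DFunLike.congr_fun this z
  have hps : ∀ z : FreeGroup (Fin 2), ps (x : G) (u : G) z = ((ps x u z : N) : G) := fun z =>
    (ps_comp N.subtype x u z).symm
  cases L with
  | nil => simp [el] at h1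
  | cons p L =>
    rw [List.map_cons, el, List.cons.injEq] at h1
    obtain ⟨e1, e2⟩ := h1
    rw [List.map_cons, List.prod_cons, e1] at h2
    obtain ⟨L1, L2, rfl, e3, e4⟩ := List.map_eq_append_iff.1 e2
    have hL2 : (L2.map fun p => p.1 * p.2 * p.1⁻¹).prod = 1 := by
      apply List.prod_eq_one
      intro y hy
      obtain ⟨q, hq, rfl⟩ := List.mem_map.1 hy
      have : q.2 ∈ List.replicate s (1 : G) := by
        rw [← e4]
        exact List.mem_map_of_mem hq
      rw [List.eq_of_mem_replicate this]
      group
    rw [List.map_append, List.prod_append, hL2, mul_one] at h2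
    set c := p.1 with hc
    -- the list in the free group
    have main : ∀ (D : List ((Fin 2 × Bool) × List (Fin 2 × Bool))) (L1 : List (G × G)),
        L1.map Prod.snd = D.map (fun p => ps (x : G) (u : G) (mk [p.1])) →
        ∃ (T : List (FreeGroup (Fin 2))) (y : N), (∀ g ∈ T, Lett g) ∧ T.length = D.length ∧
          (y : G) = c⁻¹ * (L1.map fun p => p.1 * p.2 * p.1⁻¹).prod * c ∧ ρ y = T.prod := by
      intro D
      induction D with
      | nil =>
        intro L1 h
        have : L1 = [] := by simpa using h
        subst this
        exact ⟨[], 1, by simp, rfl, by simp, by simp⟩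
      | cons d D ih =>
        intro L1 h
        cases L1 with
        | nil => simp at h
        | cons q L1 =>
          rw [List.map_cons, List.map_cons, List.cons.injEq] at h
          obtain ⟨T, y, g1, g2, g3, g4⟩ := ih L1 h.2
          let k : N := ⟨(c⁻¹ * q.1) * ((ps x u (mk [d.1]) : N) : G) * (c⁻¹ * q.1)⁻¹,
            Subgroup.Normal.conj_mem inferInstance _ (ps x u (mk [d.1])).2 _⟩
          have hk : Lett (ρ k) := by
            have m : ∀ (i : Fin 2), (mk [(i, false)] : FreeGroup (Fin 2)) = (of i)⁻¹ := by
              intro i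
              rw [of, inv_mk]; rfl
            have p0 : ps x u (of 0) = x := by
              rw [Pool.Agent.Y870.KV.ps, FreeGroup.lift_apply_of]; rfl
            have p1 : ps x u (of 1) = u := by
              rw [Pool.Agent.Y870.KV.ps, FreeGroup.lift_apply_of]; rfl
            obtain ⟨⟨i, b⟩, w⟩ := d
            fin_cases i
            · cases b with
              | true =>
                apply hcx (c⁻¹ * q.1)
                show (c⁻¹ * q.1) * ((ps x u (of 0) : N) : G) * (c⁻¹ * q.1)⁻¹ = _
                rw [p0]
              | false =>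
                have : Lett (ρ k⁻¹) := by
                  apply hcx (c⁻¹ * q.1)
                  show ((c⁻¹ * q.1) * ((ps x u (mk [(0, false)]) : N) : G) *
                    (c⁻¹ * q.1)⁻¹)⁻¹ = _
                  rw [m, map_inv, p0, InvMemClass.coe_inv]
                  group
                have := this.inv
                rwa [map_inv, inv_inv] at this
            · cases b with
              | true =>
                apply hcu (c⁻¹ * q.1)
                show (c⁻¹ * q.1) * ((ps x u (of 1) : N) : G) * (c⁻¹ * q.1)⁻¹ = _
                rw [p1]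
              | false =>
                have : Lett (ρ k⁻¹) := by
                  apply hcu (c⁻¹ * q.1)
                  show ((c⁻¹ * q.1) * ((ps x u (mk [(1, false)]) : N) : G) *
                    (c⁻¹ * q.1)⁻¹)⁻¹ = _
                  rw [m, map_inv, p1, InvMemClass.coe_inv]
                  group
                have := this.inv
                rwa [map_inv, inv_inv] at this
          refine ⟨ρ k :: T, k * y, ?_, ?_, ?_, ?_⟩
          · intro g hg
            rcases List.mem_cons.1 hg with rfl | hg
            · exact hk
            · exact g1 g hg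
          · rw [List.length_cons, List.length_cons, g2]
          · rw [Subgroup.coe_mul, g3, List.map_cons, List.prod_cons, h.1, hps]
            show (c⁻¹ * q.1) * ((ps x u (mk [d.1]) : N) : G) * (c⁻¹ * q.1)⁻¹ * _ = _
            group
          · rw [map_mul, g4, List.prod_cons]
    obtain ⟨T, y, g1, g2, g3, g4⟩ := main dat L1 e3
    have h3 : (L1.map fun p => p.1 * p.2 * p.1⁻¹).prod = c * ps (x : G) (u : G) (mk gw) * c⁻¹ := by
      have := eq_inv_of_mul_eq_one_right h2
      rw [this]
      group
    have h4 : (y : G) = ((ps x u (mk gw) : N) : G) := by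
      rw [g3, h3, hps]
      group
    have h5 : y = ps x u (mk gw) := Subtype.ext h4
    rw [h5, hρ] at g4
    exact not_prod T g1 (by rw [g2]; decide) g4.symm

end Pool.Agent.H359.KX
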