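import Pool.Graph.R_seed8.Y870.KV.Core

/-!
# A word of length 26 which is not a product of at most ten conjugates of letters

Uses the deletion lemma of `Pool.Graph.R_seed8.Helper158.Stall`.
-/

set_option autoImplicit false

namespace Pool.Agent.H359.KX

open FreeGroup hiding map_mul map_inv map_one
open Pool.Agent.Helper158.Stall

/-- one step of the reduction -/
def stp (x : Fin 2 × Bool) : List (Fin 2 × Bool) → List (Fin 2 × Bool)
  | [] => [x]
  | y :: s => if x.1 = y.1 ∧ x.2 = !y.2 then s else x :: y :: s

theorem reduce_eq (L : List (Fin 2 × Bool)) : reduce L = L.foldr stp [] := by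
  induction L with
  | nil => rfl
  | cons x L ih =>
    rw [reduce.cons, List.foldr_cons, ← ih]
    cases reduce L with
    | nil => rfl
    | cons y s => rfl

theorem stp_len (x : Fin 2 × Bool) (s : List (Fin 2 × Bool)) : s.length ≤ (stp x s).length + 1 := by
  cases s with
  | nil => simp
  | cons y s =>
    rw [stp]
    split_ifs <;> simp

theorem run_len (L s : List (Fin 2 × Bool)) :
    s.length ≤ (L.foldl (fun s x => stp x s) s).length + L.length := by
  induction L generalizing s with
  | nil => simp
  | cons x L ih =>
    have h1 := ih (stp x s)
    have h2 := stp_len x s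
    rw [List.foldl_cons, List.length_cons]
    omega

section search

variable {β : Type} [DecidableEq β]

/-- search: can the letters `P` be deleted from the word so that the rest, read with the steps `f`
after `s`, is trivial -/
def go (f : β → List β → List β) : List β → List β → List β → Bool
  | [], s, _ => s.isEmpty
  | x :: w, s, P => Nat.ble (s.length + P.length) (w.length + 1) &&
      (go f w (f x s) P || (decide (x ∈ P) && go f w s (P.erase x)))

theorem go_spec (f : β → List β → List β)
    (hf : ∀ L s : List β, s.length ≤ (L.foldl (fun s x => f x s) s).length + L.length)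
    (w : List β) : ∀ s P L' : List β, L'.Sublist w →
    (w : Multiset β) = (L' : Multiset β) + (P : Multiset β) →
    L'.foldl (fun s x => f x s) s = [] → go f w s P = true := by
  induction w with
  | nil =>
    intro s P L' h1 _ h3
    rw [List.sublist_nil] at h1
    subst h1
    rw [List.foldl_nil] at h3
    subst h3
    rfl
  | cons x w ih =>
    intro s P L' h1 h2 h3
    have hl := hf L' s
    rw [h3, List.length_nil, zero_add] at hl
    have hcard : w.length + 1 = L'.length + P.length := by
      have := congrArg Multiset.card h2
      simpa using this
    have hb : Nat.ble (s.length + P.length) (w.length + 1) = true := by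
      rw [Nat.ble_eq]
      omega
    rw [go, hb, Bool.true_and, Bool.or_eq_true]
    cases h1 with
    | cons _ h =>
      right
      have hx : x ∈ P := by
        have hc := congrArg (Multiset.count x) h2
        rw [Multiset.count_add, ← Multiset.cons_coe, Multiset.count_cons_self] at hc
        have := Multiset.count_le_of_le x (s := (L' : Multiset β)) (t := (w : Multiset β))
          (by simpa using h.subperm)
        have h4 : 0 < Multiset.count x (P : Multiset β) := by omega
        simpa using Multiset.count_pos.1 h4
      rw [Bool.and_eq_true]
      refine ⟨by simpa using hx, ih s (P.erase x) L' h ?_ h3⟩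
      have h4 : (P : Multiset β) = x ::ₘ ((P.erase x : List β) : Multiset β) := by
        rw [← Multiset.coe_erase, Multiset.cons_erase (by simpa using hx)]
      rw [h4, Multiset.add_cons, ← Multiset.cons_coe] at h2
      exact (Multiset.cons_inj_right x).1 h2
    | cons_cons _ h =>
      left
      rename_i L''
      refine ih (f x s) P L'' h ?_ ?_
      · rw [← Multiset.cons_coe, ← Multiset.cons_coe, Multiset.cons_add] at h2
        exact (Multiset.cons_inj_right x).1 h2
      · rw [List.foldl_cons] at h3
        exact h3

end search

/-- the word, reversed -/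
def gr : List (Fin 2 × Bool) := [(0, true), (1, true), (0, false), (1, true), (0, false),
  (1, true), (0, false), (1, false), (1, false), (0, true), (1, true), (0, false), (1, false),
  (0, true), (1, false), (0, true), (1, true), (0, false), (0, false), (0, false), (0, false),
  (1, false), (1, false), (1, false), (1, false), (1, false)]

/-- the word -/
def gw : List (Fin 2 × Bool) := [(1, false), (1, false), (1, false), (1, false), (1, false),
  (0, false), (0, false), (0, false), (0, false), (1, true), (0, true), (1, false), (0, true),
  (1, false), (0, false), (1, true), (0, true), (1, false), (1, false), (0, false), (1, true),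
  (0, false), (1, true), (0, false), (1, true), (0, true)]

theorem gw_reverse : gw.reverse = gr := by decide

/-- the three multisets of at most ten letters with the right exponent sums -/
def Q0 : List (Fin 2 × Bool) := [(0, false), (0, false), (0, false), (0, false), (1, false),
  (1, false), (1, false), (1, false)]
@[inherit_doc Q0] def Q1 : List (Fin 2 × Bool) := (0, true) :: (0, false) :: Q0
@[inherit_doc Q0] def Q2 : List (Fin 2 × Bool) := (1, true) :: (1, false) :: Q0

theorem go0 : go stp gr [] Q0 = false := by decide +kernel
theorem go1 : go stp gr [] Q1 = false := by decide +kernel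
theorem go2 : go stp gr [] Q2 = false := by decide +kernel

theorem no_del {L' P : List (Fin 2 × Bool)} (hs : L'.Sublist gw)
    (hD : (gw : Multiset (Fin 2 × Bool)) = (L' : Multiset _) + (P : Multiset _))
    (h1 : mk L' = 1) (hP : go stp gr [] P = false) : False := by
  have hred : reduce L' = [] := by
    rw [← toWord_mk, h1, toWord_one]
  rw [reduce_eq, ← List.foldl_reverse] at hred
  have hs' : L'.reverse.Sublist gr := by
    rw [← gw_reverse]
    exact List.reverse_sublist.2 hs
  have hD' : (gr : Multiset (Fin 2 × Bool)) = ((L'.reverse : List (Fin 2 × Bool)) : Multiset _) +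
      (P : Multiset _) := by
    rw [← gw_reverse, Multiset.coe_reverse, Multiset.coe_reverse, hD]
  have := go_spec stp run_len gr [] P L'.reverse hs' hD' hred
  rw [hP] at this
  exact Bool.false_ne_true this

/-- the exponent sum of the `i`-th generator -/
def ex (i : Fin 2) : FreeGroup (Fin 2) →* Multiplicative ℤ :=
  FreeGroup.lift (fun k => if k = i then Multiplicative.ofAdd (1 : ℤ) else 1)

/-- the number of occurrences of a letter -/
def cn (x : Fin 2 × Bool) (L : List (Fin 2 × Bool)) : ℕ := Multiset.count x (L : Multiset _)

theorem cn_cons (x y : Fin 2 × Bool) (L : List (Fin 2 × Bool)) :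
    cn x (y :: L) = cn x L + if x = y then 1 else 0 := by
  rw [cn, ← Multiset.cons_coe, Multiset.count_cons]
  rfl

theorem ex_mk (i : Fin 2) (L : List (Fin 2 × Bool)) :
    Multiplicative.toAdd (ex i (mk L)) = (cn (i, true) L : ℤ) - cn (i, false) L := by
  induction L with
  | nil =>
    have : (mk ([] : List (Fin 2 × Bool)) : FreeGroup (Fin 2)) = 1 := rfl
    rw [this, map_one]
    simp [cn]
  | cons x L ih =>
    rw [mk_cons, map_mul, toAdd_mul, ih]
    obtain ⟨j, b⟩ := x
    have h1 : Multiplicative.toAdd (ex i (mk [(j, b)])) =
        if j = i then (if b then 1 else -1) else 0 := by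
      cases b with
      | true =>
        show Multiplicative.toAdd (ex i (of j)) = _
        rw [ex, FreeGroup.lift_apply_of]
        by_cases h : j = i <;> simp [h]
      | false =>
        have : (mk [(j, false)] : FreeGroup (Fin 2)) = (of j)⁻¹ := by
          rw [of, inv_mk]; rfl
        rw [this, map_inv, ex, FreeGroup.lift_apply_of]
        by_cases h : j = i <;> simp [h]
    rw [h1, cn_cons, cn_cons]
    by_cases h : j = i
    · subst h
      cases b <;> simp <;> ring
    · have h' : ¬ i = j := fun e => h e.symm
      cases b <;> simp [h, h']

theorem not_good10 (M : Multiset (Fin 2 × Bool)) (hM : Multiset.card M ≤ 10) : ¬ Good M gw := by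
  rintro ⟨L', hs, h1, N, hN⟩
  obtain ⟨D, hD⟩ : ∃ Z : Multiset (Fin 2 × Bool),
      (gw : Multiset (Fin 2 × Bool)) = (L' : Multiset _) + Z :=
    Multiset.le_iff_exists_add.1 (by simpa using hs.subperm)
  rw [hD, add_assoc] at hN
  have hDM := add_left_cancel hN
  have hc : Multiset.card D ≤ 10 := by
    have := congrArg Multiset.card hDM
    rw [Multiset.card_add] at this
    omega
  obtain ⟨P, rfl⟩ := Quot.exists_rep D
  have hPl : P.length ≤ 10 := hc
  have bal : ∀ i : Fin 2, (cn (i, true) L' : ℤ) = cn (i, false) L' := by
    intro i
    have := ex_mk i L'
    rw [h1, map_one, toAdd_one] at this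
    linarith
  have hD2 : (gw : Multiset (Fin 2 × Bool)) = (L' : Multiset _) + (P : Multiset _) := hD
  have cnt : ∀ x : Fin 2 × Bool, cn x gw = cn x L' + cn x P := by
    intro x
    have := congrArg (Multiset.count x) hD2
    rw [Multiset.count_add] at this
    exact this
  have a1 : cn (0, true) gw = 4 := by decide
  have a2 : cn (0, false) gw = 8 := by decide
  have a3 : cn (1, true) gw = 5 := by decide
  have a4 : cn (1, false) gw = 9 := by decide
  have c1 := cnt (0, true)
  have c2 := cnt (0, false)
  have c3 := cnt (1, true)
  have c4 := cnt (1, false)
  have b0 := bal 0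
  have b1 := bal 1
  have hcard : ∀ P : List (Fin 2 × Bool), P.length = cn (0, true) P + cn (0, false) P +
      cn (1, true) P + cn (1, false) P := by
    intro P
    induction P with
    | nil => rfl
    | cons x P ih =>
      rw [List.length_cons, ih, cn_cons, cn_cons, cn_cons, cn_cons]
      have : x = (0, true) ∨ x = (0, false) ∨ x = (1, true) ∨ x = (1, false) := by
        revert x; decide
      rcases this with rfl | rfl | rfl | rfl <;> simp <;> omega
  have hcard := hcard P
  have ext4 : ∀ R : List (Fin 2 × Bool), cn (0, true) P = cn (0, true) R →
      cn (0, false) P = cn (0, false) R → cn (1, true) P = cn (1, true) R →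
      cn (1, false) P = cn (1, false) R → (P : Multiset (Fin 2 × Bool)) = R := by
    intro R e1 e2 e3 e4
    ext x
    have : x = (0, true) ∨ x = (0, false) ∨ x = (1, true) ∨ x = (1, false) := by
      revert x; decide
    rcases this with rfl | rfl | rfl | rfl
    · exact e1
    · exact e2
    · exact e3
    · exact e4
  have hk : (cn (0, true) P = 0 ∧ cn (1, true) P = 0) ∨
      (cn (0, true) P = 1 ∧ cn (1, true) P = 0) ∨
      (cn (0, true) P = 0 ∧ cn (1, true) P = 1) := by omega
  rcases hk with ⟨k1, k2⟩ | ⟨k1, k2⟩ | ⟨k1, k2⟩
  · have e := ext4 Q0 (by rw [show cn (0, true) Q0 = 0 by decide]; omega)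
      (by rw [show cn (0, false) Q0 = 4 by decide]; omega)
      (by rw [show cn (1, true) Q0 = 0 by decide]; omega)
      (by rw [show cn (1, false) Q0 = 4 by decide]; omega)
    rw [e] at hD2
    exact no_del hs hD2 h1 go0
  · have e := ext4 Q1 (by rw [show cn (0, true) Q1 = 1 by decide]; omega)
      (by rw [show cn (0, false) Q1 = 5 by decide]; omega)
      (by rw [show cn (1, true) Q1 = 0 by decide]; omega)
      (by rw [show cn (1, false) Q1 = 4 by decide]; omega)
    rw [e] at hD2
    exact no_del hs hD2 h1 go1
  · have e := ext4 Q2 (by rw [show cn (0, true) Q2 = 0 by decide]; omega)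
      (by rw [show cn (0, false) Q2 = 4 by decide]; omega)
      (by rw [show cn (1, true) Q2 = 1 by decide]; omega)
      (by rw [show cn (1, false) Q2 = 5 by decide]; omega)
    rw [e] at hD2
    exact no_del hs hD2 h1 go2

end Pool.Agent.H359.KX
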