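import Pool.Agent.H359.KX.Wreath

/-!
# The free products of a group of order three and a group of order two or three
-/

set_option autoImplicit false

namespace Pool.Agent.H359.KX

open FreeGroup hiding map_mul map_inv map_one
open Pool.Agent.Helper158.Stall
open Monoid (Coprod)
open RegularWreathProduct (mul_left mul_right inv_left inv_right)

/-- homomorphisms from groups of prime order -/
theorem exists_hom {A Q : Type} [Group A] [Group Q] (p : ℕ) [Fact p.Prime] (h : Nat.card A = p)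
    (σ : Q) (hσ : σ ^ p = 1) : ∃ (j : A →* Q) (a : A), j a = σ := by
  haveI : IsCyclic A := isCyclic_of_prime_card h
  obtain ⟨g, hg⟩ := IsCyclic.exists_generator (α := A)
  have ho : orderOf g = p := by
    rw [← h]
    exact orderOf_eq_card_of_forall_mem_zpowers hg
  have hd : orderOf σ ∣ orderOf g := by
    rw [ho]
    exact orderOf_dvd_of_pow_eq_one hσ
  exact ⟨monoidHomOfForallMemZpowers hg hd, g, monoidHomOfForallMemZpowers_apply_gen hg hd⟩

theorem Lett.of_length {g : FreeGroup (Fin 2)} (h : g.toWord.length ≤ 1) : Lett g := by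
  have hg : mk g.toWord = g := mk_toWord
  match hw : g.toWord, h with
  | [], _ =>
    have : g = 1 := by
      rw [← hg, hw]; rfl
    rw [this]
    exact Lett.one
  | [x], _ =>
    refine ⟨1, some x, ?_⟩
    rw [← hg, hw]
    show (mk [x] : FreeGroup (Fin 2)) = 1 * mk [x] * 1⁻¹
    group
  | x :: y :: l, h => exact absurd h (by simp)

/-- the function with the values `s`, `t` at two elements -/
def hh (q₁ q₂ q : Equiv.Perm (Fin 4)) : FreeGroup (Fin 2) :=
  if q = q₁ then of 0 else if q = q₂ then of 1 else 1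

/-- the image of `inl a * inr b` -/
def ab (q₁ q₂ σ τ : Equiv.Perm (Fin 4)) : (FreeGroup (Fin 2)) ≀ᵣ (Equiv.Perm (Fin 4)) :=
  ⟨fun q => hh q₁ q₂ q * (hh q₁ q₂ (σ⁻¹ * q))⁻¹, σ⟩ * ⟨1, τ⟩

/-- the element `(a b) ^ n` and its conjugate by `b` -/
theorem works_small {A B : Type} [Group A] [Group B] (q₁ q₂ σ τ : Equiv.Perm (Fin 4)) (n : ℕ)
    (jA : A →* Equiv.Perm (Fin 4)) (jB : B →* Equiv.Perm (Fin 4)) (a : A) (b : B)
    (ha : jA a = σ) (hb : jB b = τ)
    (h1 : (ab q₁ q₂ σ τ ^ n).right = 1) (h2 : (ab q₁ q₂ σ τ ^ n).left 1 = of 0)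
    (h3 : (ab q₁ q₂ σ τ ^ n).left τ⁻¹ = of 1)
    (h4 : ∀ q, ((ab q₁ q₂ σ τ ^ n).left q).toWord.length ≤ 1) :
    Works ((Coprod.inl a * Coprod.inr b : Coprod A B) ^ n)
      (Coprod.inr b * (Coprod.inl a * Coprod.inr b) ^ n * (Coprod.inr b)⁻¹) := by
  have hx : psi jA jB (hh q₁ q₂) ((Coprod.inl a * Coprod.inr b : Coprod A B) ^ n) =
      ab q₁ q₂ σ τ ^ n := by
    rw [map_pow, map_mul, psi_inl, psi_inr, ha, hb]
    rfl
  have hu : ∀ q, (psi jA jB (hh q₁ q₂) (Coprod.inr b * (Coprod.inl a * Coprod.inr b) ^ n *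
      (Coprod.inr b)⁻¹)).left q = (ab q₁ q₂ σ τ ^ n).left (τ⁻¹ * q) := by
    intro q
    rw [map_mul, map_mul, map_inv, hx, psi_inr, hb, mul_left, Pi.mul_apply, mul_left,
      Pi.mul_apply, mul_right, inv_left, h1]
    simp
  refine ⟨Equiv.Perm (Fin 4), inferInstance, psi jA jB (hh q₁ q₂), ?_, ?_, ?_, ?_, ?_, ?_⟩
  · rw [hx, h1]
  · rw [map_mul, map_mul, map_inv, hx, psi_inr, mul_right, mul_right, inv_right, h1]
    simp
  · rw [hx, h2]
  · rw [hu, mul_one, h3]
  · intro q
    rw [hx]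
    exact Lett.of_length (h4 q)
  · intro q
    rw [hu]
    exact Lett.of_length (h4 _)

/-- a three-cycle -/
def sg : Equiv.Perm (Fin 4) := ⟨![1, 2, 0, 3], ![2, 0, 1, 3], by decide, by decide⟩
/-- a product of two transpositions -/
def ta : Equiv.Perm (Fin 4) := ⟨![1, 0, 3, 2], ![1, 0, 3, 2], by decide, by decide⟩
/-- another three-cycle -/
def sp : Equiv.Perm (Fin 4) := ⟨![0, 2, 3, 1], ![0, 3, 1, 2], by decide, by decide⟩

theorem c32a : (ab (ta * sg⁻¹) (sg * ta * sg) sg ta ^ 3).right = 1 := by decide +kernel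
theorem c32b : (ab (ta * sg⁻¹) (sg * ta * sg) sg ta ^ 3).left 1 = of 0 := by decide +kernel
theorem c32c : (ab (ta * sg⁻¹) (sg * ta * sg) sg ta ^ 3).left ta⁻¹ = of 1 := by decide +kernel
theorem c32d : ∀ q, ((ab (ta * sg⁻¹) (sg * ta * sg) sg ta ^ 3).left q).toWord.length ≤ 1 := by
  decide +kernel

theorem c33a : (ab (sg * sp) sp⁻¹ sg sp ^ 2).right = 1 := by decide +kernel
theorem c33b : (ab (sg * sp) sp⁻¹ sg sp ^ 2).left 1 = of 0 := by decide +kernel
theorem c33c : (ab (sg * sp) sp⁻¹ sg sp ^ 2).left sp⁻¹ = of 1 := by decide +kernel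
theorem c33d : ∀ q, ((ab (sg * sp) sp⁻¹ sg sp ^ 2).left q).toWord.length ≤ 1 := by
  decide +kernel

theorem works32 {A B : Type} [Group A] [Group B] (hA : Nat.card A = 3) (hB : Nat.card B = 2) :
    ∃ x u : Coprod A B, Works x u := by
  haveI : Fact (Nat.Prime 3) := ⟨Nat.prime_three⟩
  haveI : Fact (Nat.Prime 2) := ⟨Nat.prime_two⟩
  obtain ⟨jA, a, ha⟩ := exists_hom (A := A) 3 hA sg (by decide)
  obtain ⟨jB, b, hb⟩ := exists_hom (A := B) 2 hB ta (by decide)
  exact ⟨_, _, works_small _ _ sg ta 3 jA jB a b ha hb c32a c32b c32c c32d⟩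

theorem works33 {A B : Type} [Group A] [Group B] (hA : Nat.card A = 3) (hB : Nat.card B = 3) :
    ∃ x u : Coprod A B, Works x u := by
  haveI : Fact (Nat.Prime 3) := ⟨Nat.prime_three⟩
  obtain ⟨jA, a, ha⟩ := exists_hom (A := A) 3 hA sg (by decide)
  obtain ⟨jB, b, hb⟩ := exists_hom (A := B) 3 hB sp (by decide)
  exact ⟨_, _, works_small _ _ sg sp 2 jA jB a b ha hb c33a c33b c33c c33d⟩

theorem works_swap {A B : Type} [Group A] [Group B] (h : ∃ x u : Coprod B A, Works x u) :
    ∃ x u : Coprod A B, Works x u := by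
  obtain ⟨x, u, h⟩ := h
  refine ⟨Coprod.swap B A x, Coprod.swap B A u, Works.comap (Coprod.swap A B) ?_⟩
  rwa [Coprod.swap_swap, Coprod.swap_swap]

/-- **every free product of two nontrivial groups, not both of order two** -/
theorem works_all (A B : Type) [Group A] [Group B] [Nontrivial A] [Nontrivial B]
    (h : ¬ (Nat.card A = 2 ∧ Nat.card B = 2)) : ∃ x u : Coprod A B, Works x u := by
  -- the main case
  have main : ∀ (A B : Type) [Group A] [Group B] [Nontrivial A] [Nontrivial B],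
      ¬ (Finite A ∧ Nat.card A ≤ 3) → ∃ x u : Coprod A B, Works x u := by
    intro A B _ _ _ _ hA
    obtain ⟨a, a', ha, ha', hne, h1, h2⟩ := exists_pair hA
    obtain ⟨b, hb⟩ := exists_ne (1 : B)
    exact ⟨_, _, works_four ha ha' hne h1 h2 hb⟩
  by_cases cA : Finite A ∧ Nat.card A ≤ 3
  · by_cases cB : Finite B ∧ Nat.card B ≤ 3
    · obtain ⟨fA, cA⟩ := cA
      obtain ⟨fB, cB⟩ := cB
      have h1 : 1 < Nat.card A := Finite.one_lt_card
      have h2 : 1 < Nat.card B := Finite.one_lt_card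
      have hA : Nat.card A = 2 ∨ Nat.card A = 3 := by omega
      have hB : Nat.card B = 2 ∨ Nat.card B = 3 := by omega
      rcases hA with hA | hA
      · rcases hB with hB | hB
        · exact absurd ⟨hA, hB⟩ h
        · exact works_swap (works32 hB hA)
      · rcases hB with hB | hB
        · exact works32 hA hB
        · exact works33 hA hB
    · exact works_swap (main B A cB)
  · exact main A B cA

end Pool.Agent.H359.KX
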