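import Pool.Agent.H359.KX.Small
import Mathlib.GroupTheory.FreeGroup.NielsenSchreier

/-!
# Torus knot groups: they map onto free products of two cyclic groups, and their images in free
groups are commutative
-/

set_option autoImplicit false

namespace Pool.Agent.H359.KX

open Monoid (Coprod)

/-- the group `⟨a, b | a ^ p = b ^ q⟩` -/
abbrev TorusKnot (p q : ℕ) : Type :=
  PresentedGroup ({FreeGroup.of 0 ^ p * (FreeGroup.of 1 ^ q)⁻¹} : Set (FreeGroup (Fin 2)))

/-- the cyclic group of order `n` -/
abbrev Cyc (n : ℕ) : Type := Multiplicative (ZMod n)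

theorem gen_pow (n : ℕ) : (Multiplicative.ofAdd (1 : ZMod n)) ^ n = 1 := by
  rw [← ofAdd_nsmul, nsmul_eq_mul, ZMod.natCast_self, zero_mul]
  rfl

theorem exists_pow (n : ℕ) [NeZero n] (m : Cyc n) :
    ∃ k : ℕ, (Multiplicative.ofAdd (1 : ZMod n)) ^ k = m := by
  refine ⟨(Multiplicative.toAdd m).val, ?_⟩
  rw [← ofAdd_nsmul, nsmul_eq_mul, ZMod.natCast_zmod_val, mul_one]
  rfl

/-- the map from the torus knot group to the free product -/
theorem exists_onto (p q : ℕ) [NeZero p] [NeZero q] :
    ∃ f : TorusKnot p q →* Coprod (Cyc p) (Cyc q), Function.Surjective f := by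
  let v : Fin 2 → Coprod (Cyc p) (Cyc q) :=
    ![Coprod.inl (Multiplicative.ofAdd 1), Coprod.inr (Multiplicative.ofAdd 1)]
  have hv : ∀ r ∈ ({FreeGroup.of 0 ^ p * (FreeGroup.of 1 ^ q)⁻¹} : Set (FreeGroup (Fin 2))),
      FreeGroup.lift v r = 1 := by
    intro r hr
    rw [Set.mem_singleton_iff] at hr
    rw [hr, map_mul, map_inv, map_pow, map_pow, FreeGroup.lift_apply_of, FreeGroup.lift_apply_of]
    show (Coprod.inl (Multiplicative.ofAdd 1) : Coprod (Cyc p) (Cyc q)) ^ p *
      (Coprod.inr (Multiplicative.ofAdd 1) ^ q)⁻¹ = 1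
    have e0 := map_pow (Coprod.inl : Cyc p →* Coprod (Cyc p) (Cyc q)) (Multiplicative.ofAdd 1) p
    have e1 := map_pow (Coprod.inr : Cyc q →* Coprod (Cyc p) (Cyc q)) (Multiplicative.ofAdd 1) q
    rw [gen_pow, map_one] at e0 e1
    rw [← e0, ← e1, inv_one, mul_one]
  let f : TorusKnot p q →* Coprod (Cyc p) (Cyc q) := PresentedGroup.toGroup hv
  have f0 : Coprod.inl (Multiplicative.ofAdd 1) ∈ f.range :=
    ⟨PresentedGroup.of 0, PresentedGroup.toGroup.of hv⟩
  have f1 : Coprod.inr (Multiplicative.ofAdd 1) ∈ f.range :=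
    ⟨PresentedGroup.of 1, PresentedGroup.toGroup.of hv⟩
  refine ⟨f, MonoidHom.range_eq_top.1 (top_le_iff.1 ?_)⟩
  intro y _
  induction y using Coprod.induction_on with
  | inl m =>
    obtain ⟨k, rfl⟩ := exists_pow p m
    rw [map_pow]
    exact Subgroup.pow_mem _ f0 k
  | inr m =>
    obtain ⟨k, rfl⟩ := exists_pow q m
    rw [map_pow]
    exact Subgroup.pow_mem _ f1 k
  | mul x y hx hy => exact Subgroup.mul_mem _ (hx trivial) (hy trivial)

/-- two elements `x`, `y` of a free group with `x ^ p = y ^ q`, `p, q ≥ 1`, which generate it: the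
basis has at most one element -/
theorem basis_subsingleton {ι : Type} (x y : FreeGroup ι) (p q : ℕ) (hq : 0 < q)
    (hxy : x ^ p = y ^ q) (hgen : Subgroup.closure {x, y} = ⊤) : Subsingleton ι := by
  classical
  constructor
  intro i j
  by_contra hij
  -- the exponent sums
  let e : ι → FreeGroup ι →* Multiplicative ℤ := fun k =>
    FreeGroup.lift (fun l => if l = k then Multiplicative.ofAdd (1 : ℤ) else 1)
  have e_same : ∀ k, e k (FreeGroup.of k) = Multiplicative.ofAdd 1 := by
    intro k
    show FreeGroup.lift _ (FreeGroup.of k) = _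
    rw [FreeGroup.lift_apply_of, if_pos rfl]
  have e_ne : ∀ k l, l ≠ k → e k (FreeGroup.of l) = 1 := by
    intro k l h
    show FreeGroup.lift _ (FreeGroup.of l) = _
    rw [FreeGroup.lift_apply_of, if_neg h]
  -- homomorphisms which vanish on `x` and `y` are trivial
  have triv : ∀ d : FreeGroup ι →* Multiplicative ℤ, d x = 1 → d y = 1 → d = 1 := by
    intro d h1 h2
    have : (⊤ : Subgroup (FreeGroup ι)) ≤ d.ker := by
      rw [← hgen, Subgroup.closure_le]
      rintro z (rfl | rfl)
      · exact h1
      · exact h2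
    ext z
    exact congrArg Multiplicative.toAdd (this (Subgroup.mem_top (FreeGroup.of z)))
  have rel : ∀ d : FreeGroup ι →* Multiplicative ℤ,
      (p : ℤ) * Multiplicative.toAdd (d x) = q * Multiplicative.toAdd (d y) := by
    intro d
    have := congrArg (fun z => Multiplicative.toAdd (d z)) hxy
    simpa using this
  have kill : ∀ d : FreeGroup ι →* Multiplicative ℤ, Multiplicative.toAdd (d x) = 0 → d = 1 := by
    intro d h
    apply triv d
    · exact congrArg Multiplicative.ofAdd h
    · have h2 := rel d
      rw [h, mul_zero] at h2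
      have h3 : Multiplicative.toAdd (d y) = 0 := by
        rcases mul_eq_zero.1 h2.symm with h4 | h4
        · omega
        · exact h4
      exact congrArg Multiplicative.ofAdd h3
  set a := Multiplicative.toAdd (e i x) with ha
  set b := Multiplicative.toAdd (e j x) with hb
  -- the combination which vanishes on `x`
  have h1 : (e i ^ b * e j ^ (-a) : FreeGroup ι →* Multiplicative ℤ) = 1 := by
    apply kill
    show Multiplicative.toAdd ((e i x) ^ b * (e j x) ^ (-a)) = 0
    rw [toAdd_mul, toAdd_zpow, toAdd_zpow, ← ha, ← hb]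
    simp only [smul_eq_mul]
    ring
  have hb0 : b = 0 := by
    have := congrArg (fun d : FreeGroup ι →* Multiplicative ℤ =>
      Multiplicative.toAdd (d (FreeGroup.of i))) h1
    have h2 : Multiplicative.toAdd ((e i (FreeGroup.of i)) ^ b * (e j (FreeGroup.of i)) ^ (-a)) =
        0 := this
    rw [e_same, e_ne j i hij, one_zpow, mul_one, toAdd_zpow] at h2
    simpa using h2
  have h3 := kill (e j) hb0
  have h4 := congrArg (fun d : FreeGroup ι →* Multiplicative ℤ => d (FreeGroup.of j)) h3
  have h5 : e j (FreeGroup.of j) = 1 := h4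
  rw [e_same] at h5
  exact absurd h5 (by decide)

theorem comm_of_subsingleton {ι : Type} [Subsingleton ι] (x y : FreeGroup ι) :
    x * y = y * x := by
  have h : ∀ z : FreeGroup ι, ∀ i : ι, z * FreeGroup.of i = FreeGroup.of i * z := by
    intro z i
    induction z using FreeGroup.induction_on with
    | C1 => simp
    | of j => rw [Subsingleton.elim j i]
    | inv_of j _ => rw [Subsingleton.elim j i]; simp
    | mul x y hx hy => rw [mul_assoc, hy, ← mul_assoc, hx, mul_assoc]
  induction y using FreeGroup.induction_on with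
  | C1 => simp
  | of j => exact h x j
  | inv_of j _ =>
    have := h x j
    rw [eq_inv_mul_iff_mul_eq, ← mul_assoc, ← this, mul_assoc, mul_inv_cancel, mul_one]
  | mul y z hy hz => rw [← mul_assoc, hy, mul_assoc, hz, mul_assoc]

/-- the images of the torus knot groups in free groups are commutative -/
theorem image_comm (p q : ℕ) (hq : 0 < q) (α : Type)
    (f : TorusKnot p q →* FreeGroup α) (g h : TorusKnot p q) : f g * f h = f h * f g := by
  let H : Subgroup (FreeGroup α) := f.range
  let ε : H ≃* FreeGroup (IsFreeGroup.Generators H) := IsFreeGroup.toFreeGroup H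
  let F : TorusKnot p q →* FreeGroup (IsFreeGroup.Generators H) :=
    ε.toMonoidHom.comp f.rangeRestrict
  have hF : Function.Surjective F := ε.surjective.comp f.rangeRestrict_surjective
  let x : TorusKnot p q := PresentedGroup.of 0
  let y : TorusKnot p q := PresentedGroup.of 1
  have hxy : x ^ p = y ^ q := by
    have : (PresentedGroup.mk ({FreeGroup.of 0 ^ p * (FreeGroup.of 1 ^ q)⁻¹} :
        Set (FreeGroup (Fin 2)))) (FreeGroup.of 0 ^ p * (FreeGroup.of 1 ^ q)⁻¹) = 1 :=
      PresentedGroup.one_of_mem rfl
    rw [map_mul, map_inv, map_pow, map_pow, mul_inv_eq_one] at this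
    exact this
  have hgen : Subgroup.closure ({x, y} : Set (TorusKnot p q)) = ⊤ := by
    rw [eq_top_iff, ← PresentedGroup.closure_range_of, Subgroup.closure_le]
    rintro _ ⟨i, rfl⟩
    apply Subgroup.subset_closure
    fin_cases i
    · exact Or.inl rfl
    · exact Or.inr rfl
  have hgen' : Subgroup.closure ({F x, F y} : Set (FreeGroup (IsFreeGroup.Generators H))) = ⊤ := by
    have h1 : (Subgroup.closure ({x, y} : Set (TorusKnot p q))).map F =
        Subgroup.closure ({F x, F y} : Set _) := by
      rw [MonoidHom.map_closure, Set.image_pair]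
    rw [← h1, hgen]
    exact Subgroup.map_top_of_surjective F hF
  have hs : Subsingleton (IsFreeGroup.Generators H) :=
    basis_subsingleton (F x) (F y) p q hq (by rw [← map_pow, ← map_pow, hxy]) hgen'
  have hc := comm_of_subsingleton (F g) (F h)
  have h2 : ε (f.rangeRestrict g * f.rangeRestrict h) =
      ε (f.rangeRestrict h * f.rangeRestrict g) := by
    rw [map_mul, map_mul]
    exact hc
  exact congrArg Subtype.val (ε.injective h2)

end Pool.Agent.H359.KX
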