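import Pool.Agent.H359.KX.Key
import Mathlib.GroupTheory.RegularWreathProduct

/-!
# The criterion for free products: homomorphisms to wreath products of a free group
-/

set_option autoImplicit false

namespace Pool.Agent.H359.KX

open FreeGroup hiding map_mul map_inv map_one
open Pool.Agent.Helper158.Stall
open Monoid (Coprod)
open RegularWreathProduct (mul_left mul_right inv_left inv_right)

/-- the pair `x`, `u` of elements of a group `G` with a homomorphism to a wreath product of the free
group on two generators: every coordinate of `x`, `u` is trivial or a conjugate of a letter, and the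
coordinates at `1` are the generators -/
def Works {G : Type} [Group G] (x u : G) : Prop :=
  ∃ (Q : Type) (_ : Group Q) (Ψ : G →* (FreeGroup (Fin 2)) ≀ᵣ Q),
    (Ψ x).right = 1 ∧ (Ψ u).right = 1 ∧ (Ψ x).left 1 = of 0 ∧ (Ψ u).left 1 = of 1 ∧
    (∀ q, Lett ((Ψ x).left q)) ∧ ∀ q, Lett ((Ψ u).left q)

theorem Works.comap {G P : Type} [Group G] [Group P] (f : G →* P) {x u : G}
    (h : Works (f x) (f u)) : Works x u := by
  obtain ⟨Q, i, Ψ, h⟩ := h
  exact ⟨Q, i, Ψ.comp f, h⟩

/-- the criterion gives a normal subgroup with a homomorphism to the free group -/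
theorem Works.exists_normal {G : Type} [Group G] {x u : G} (h : Works x u) :
    ∃ (N : Subgroup G) (_ : N.Normal) (hx : x ∈ N) (hu : u ∈ N) (ρ : N →* FreeGroup (Fin 2)),
      ρ ⟨x, hx⟩ = of 0 ∧ ρ ⟨u, hu⟩ = of 1 ∧
      (∀ (g : G) (y : N), (y : G) = g * x * g⁻¹ → Lett (ρ y)) ∧
      ∀ (g : G) (y : N), (y : G) = g * u * g⁻¹ → Lett (ρ y) := by
  obtain ⟨Q, _, Ψ, hx1, hu1, hx, hu, hcx, hcu⟩ := h
  let N : Subgroup G := (RegularWreathProduct.rightHom.comp Ψ).ker
  have hN : ∀ g : G, g ∈ N ↔ (Ψ g).right = 1 := fun g => Iff.rfl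
  let ρ : N →* FreeGroup (Fin 2) := MonoidHom.mk' (fun n => (Ψ n).left 1) (by
    intro a b
    have ha : (Ψ (a : G)).right = 1 := a.2
    show (Ψ ((a * b : N) : G)).left 1 = _
    rw [Subgroup.coe_mul, map_mul, mul_left, Pi.mul_apply, ha]
    simp)
  have conj : ∀ (x g : G), (∀ q, Lett ((Ψ x).left q)) → (Ψ x).right = 1 →
      Lett ((Ψ (g * x * g⁻¹)).left 1) := by
    intro x g h h1
    have : (Ψ (g * x * g⁻¹)).left 1 = (Ψ g).left 1 * (Ψ x).left ((Ψ g).right⁻¹) *
        ((Ψ g).left 1)⁻¹ := by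
      rw [map_mul, map_mul, map_inv, mul_left, Pi.mul_apply, mul_left, Pi.mul_apply, mul_right,
        inv_left, h1]
      simp
    rw [this]
    exact (h _).conj _
  refine ⟨N, inferInstance, (hN x).2 hx1, (hN u).2 hu1, ρ, hx, hu, ?_, ?_⟩
  · intro g y hy
    show Lett ((Ψ (y : G)).left 1)
    rw [hy]
    exact conj x g hcx hx1
  · intro g y hy
    show Lett ((Ψ (y : G)).left 1)
    rw [hy]
    exact conj u g hcu hu1

/-- the homomorphism from a free product to the wreath product -/
def psi {A B Q : Type} [Group A] [Group B] [Group Q] (jA : A →* Q) (jB : B →* Q)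
    (h : Q → FreeGroup (Fin 2)) : Coprod A B →* (FreeGroup (Fin 2)) ≀ᵣ Q :=
  Coprod.lift ((MulAut.conj (⟨h, 1⟩ : (FreeGroup (Fin 2)) ≀ᵣ Q)).toMonoidHom.comp
    (RegularWreathProduct.inl.comp jA)) (RegularWreathProduct.inl.comp jB)

section psi

variable {A B Q : Type} [Group A] [Group B] [Group Q] (jA : A →* Q) (jB : B →* Q)
  (h : Q → FreeGroup (Fin 2))

theorem psi_inl (a : A) : psi jA jB h (Coprod.inl a) =
    ⟨fun q => h q * (h ((jA a)⁻¹ * q))⁻¹, jA a⟩ := by
  rw [psi, Coprod.lift_apply_inl]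
  show (⟨h, 1⟩ : (FreeGroup (Fin 2)) ≀ᵣ Q) * RegularWreathProduct.inl (jA a) * ⟨h, 1⟩⁻¹ = _
  ext q
  · simp
  · simp

theorem psi_inr (b : B) : psi jA jB h (Coprod.inr b) = ⟨1, jB b⟩ := by
  rw [psi, Coprod.lift_apply_inr]
  rfl

end psi

theorem Lett.two {g g' : FreeGroup (Fin 2)} (h : Lett g) (h' : Lett g') (e : g = 1 ∨ g' = 1) :
    Lett (g * g'⁻¹) := by
  rcases e with rfl | rfl
  · rw [one_mul]; exact h'.inv
  · rw [inv_one, mul_one]; exact h

open Classical in
/-- the main case -/
theorem works_four {A B : Type} [Group A] [Group B] {a a' : A} {b : B} (ha : a ≠ 1) (ha' : a' ≠ 1)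
    (hne : a ≠ a') (h1 : a' ≠ a * a) (h2 : a ≠ a' * a') (hb : b ≠ 1) :
    Works (Coprod.inl a * Coprod.inr b * (Coprod.inl a)⁻¹ * (Coprod.inr b)⁻¹ : Coprod A B)
      (Coprod.inl a' * Coprod.inr b * (Coprod.inl a')⁻¹ * (Coprod.inr b)⁻¹) := by
  let k : A → FreeGroup (Fin 2) := fun p => if p = a⁻¹ then of 0 else if p = a'⁻¹ then of 1 else 1
  let h : A × B → FreeGroup (Fin 2) := fun p => if p.2 = b⁻¹ then k p.1 else 1
  let Ψ : Coprod A B →* (FreeGroup (Fin 2)) ≀ᵣ (A × B) :=
    psi (MonoidHom.inl A B) (MonoidHom.inr A B) h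
  have hk : ∀ p, Lett (k p) := by
    intro p
    show Lett (if p = a⁻¹ then of 0 else if p = a'⁻¹ then of 1 else 1)
    split_ifs
    · exact Lett.of 0
    · exact Lett.of 1
    · exact Lett.one
  have k1 : k 1 = 1 := by
    show (if (1 : A) = a⁻¹ then of 0 else if 1 = a'⁻¹ then of 1 else 1) =
      (1 : FreeGroup (Fin 2))
    rw [if_neg (fun e => ha (by simpa using e.symm)), if_neg (fun e => ha' (by simpa using e.symm))]
  have ka : k a⁻¹ = of 0 := if_pos rfl
  have ka' : k a'⁻¹ = of 1 := by
    show (if a'⁻¹ = a⁻¹ then of 0 else if a'⁻¹ = a'⁻¹ then of 1 else 1) =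
      (of 1 : FreeGroup (Fin 2))
    rw [if_neg (fun e => hne (inv_injective e).symm), if_pos rfl]
  have kne : ∀ p, k p ≠ 1 → p = a⁻¹ ∨ p = a'⁻¹ := by
    intro p hp
    by_contra hc
    rw [not_or] at hc
    apply hp
    show (if p = a⁻¹ then of 0 else if p = a'⁻¹ then of 1 else 1) = (1 : FreeGroup (Fin 2))
    rw [if_neg hc.1, if_neg hc.2]
  have sep : ∀ α : A, α = a ∨ α = a' → ∀ p, k p = 1 ∨ k (α⁻¹ * p) = 1 := by
    intro α hα p
    by_contra hc
    rw [not_or] at hc
    have e1 := kne _ hc.1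
    have e2 := kne _ hc.2
    rcases hα with rfl | rfl
    · rcases e1 with rfl | rfl
      · rcases e2 with e | e
        · exact ha (by simpa using e)
        · apply h1
          have := congrArg (·⁻¹) e
          simpa using this.symm
      · rcases e2 with e | e
        · exact ha' (by simpa using e)
        · exact ha (by simpa using e)
    · rcases e1 with rfl | rfl
      · rcases e2 with e | e
        · exact ha' (by simpa using e)
        · exact ha (by simpa using e)
      · rcases e2 with e | e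
        · apply h2
          have := congrArg (·⁻¹) e
          simpa using this.symm
        · exact ha' (by simpa using e)
  have bne : b⁻¹ ≠ 1 := by simpa using hb
  -- the coordinates of the commutators
  have coord : ∀ (α : A) (p : A × B),
      (Ψ (Coprod.inl α * Coprod.inr b * (Coprod.inl α)⁻¹ * (Coprod.inr b)⁻¹)).left p =
        h p * (h (α⁻¹ * p.1, p.2))⁻¹ * (h (α⁻¹ * p.1, b⁻¹ * p.2) * (h (p.1, b⁻¹ * p.2))⁻¹) := by
    intro α p
    show (psi (MonoidHom.inl A B) (MonoidHom.inr A B) h _).left p = _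
    rw [map_mul, map_mul, map_mul, map_inv, map_inv, psi_inl, psi_inr]
    obtain ⟨p1, p2⟩ := p
    simp
  have hright : ∀ α : A,
      (Ψ (Coprod.inl α * Coprod.inr b * (Coprod.inl α)⁻¹ * (Coprod.inr b)⁻¹)).right = 1 := by
    intro α
    show (psi (MonoidHom.inl A B) (MonoidHom.inr A B) h _).right = 1
    rw [map_mul, map_mul, map_mul, map_inv, map_inv, psi_inl, psi_inr]
    simp
  have letts : ∀ α : A, α = a ∨ α = a' → ∀ p : A × B,
      Lett ((Ψ (Coprod.inl α * Coprod.inr b * (Coprod.inl α)⁻¹ * (Coprod.inr b)⁻¹)).left p) := by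
    intro α hα p
    rw [coord]
    obtain ⟨p1, p2⟩ := p
    by_cases e : p2 = b⁻¹
    · have e2 : b⁻¹ * p2 ≠ b⁻¹ := by
        rw [e]
        intro e3
        exact bne (by simpa using e3)
      have g1 : h (p1, p2) = k p1 := if_pos e
      have g2 : h (α⁻¹ * p1, p2) = k (α⁻¹ * p1) := if_pos e
      have g3 : h (α⁻¹ * p1, b⁻¹ * p2) = 1 := if_neg e2
      have g4 : h (p1, b⁻¹ * p2) = 1 := if_neg e2
      rw [g1, g2, g3, g4, inv_one, mul_one, mul_one]
      exact (hk _).two (hk _) (sep α hα p1)
    · by_cases e1 : p2 = 1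
      · have e2 : b⁻¹ * p2 = b⁻¹ := by rw [e1, mul_one]
        have g1 : h (p1, p2) = 1 := if_neg e
        have g2 : h (α⁻¹ * p1, p2) = 1 := if_neg e
        have g3 : h (α⁻¹ * p1, b⁻¹ * p2) = k (α⁻¹ * p1) := if_pos e2
        have g4 : h (p1, b⁻¹ * p2) = k p1 := if_pos e2
        rw [g1, g2, g3, g4, inv_one, mul_one, one_mul]
        exact (hk _).two (hk _) (sep α hα p1).symm
      · have e2 : b⁻¹ * p2 ≠ b⁻¹ := by
          intro e3
          exact e1 (by simpa using e3)
        have g1 : h (p1, p2) = 1 := if_neg e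
        have g2 : h (α⁻¹ * p1, p2) = 1 := if_neg e
        have g3 : h (α⁻¹ * p1, b⁻¹ * p2) = 1 := if_neg e2
        have g4 : h (p1, b⁻¹ * p2) = 1 := if_neg e2
        rw [g1, g2, g3, g4, inv_one, mul_one, mul_one]
        exact Lett.one
  have at1 : ∀ α : A,
      (Ψ (Coprod.inl α * Coprod.inr b * (Coprod.inl α)⁻¹ * (Coprod.inr b)⁻¹)).left 1 =
        k α⁻¹ := by
    intro α
    rw [coord]
    have g1 : h 1 = 1 := if_neg bne.symm
    have g2 : h (α⁻¹ * (1 : A × B).1, (1 : A × B).2) = 1 := if_neg bne.symm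
    have g3 : h (α⁻¹ * (1 : A × B).1, b⁻¹ * (1 : A × B).2) = k (α⁻¹ * 1) :=
      if_pos (mul_one _)
    have g4 : h ((1 : A × B).1, b⁻¹ * (1 : A × B).2) = k 1 := if_pos (mul_one _)
    rw [g1, g2, g3, g4, k1, mul_one]
    simp
  exact ⟨A × B, inferInstance, Ψ, hright a, hright a', (at1 a).trans ka, (at1 a').trans ka',
    letts a (Or.inl rfl), letts a' (Or.inr rfl)⟩

/-- the two elements of a group with at least four elements -/
theorem exists_pair {A : Type} [Group A] (h : ¬ (Finite A ∧ Nat.card A ≤ 3)) :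
    ∃ a a' : A, a ≠ 1 ∧ a' ≠ 1 ∧ a ≠ a' ∧ a' ≠ a * a ∧ a ≠ a' * a' := by
  -- an element outside a given list of three elements
  have out : ∀ x y z : A, ∃ w : A, w ≠ x ∧ w ≠ y ∧ w ≠ z := by
    intro x y z
    by_contra hc
    push Not at hc
    apply h
    have hs : (Set.univ : Set A) ⊆ {x, y, z} := by
      intro w _
      by_cases e1 : w = x
      · simp [e1]
      · by_cases e2 : w = y
        · simp [e2]
        · simp [hc w e1 e2]
    have hf : (Set.univ : Set A).Finite := (Set.toFinite {x, y, z}).subset hs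
    have hfin : Finite A := Set.finite_univ_iff.1 hf
    refine ⟨hfin, ?_⟩
    have h4 := Set.ncard_le_ncard hs (Set.toFinite _)
    rw [Set.ncard_univ] at h4
    have h5 : ({x, y, z} : Set A).ncard ≤ ({y, z} : Set A).ncard + 1 := Set.ncard_insert_le _ _
    have h6 : ({y, z} : Set A).ncard ≤ ({z} : Set A).ncard + 1 := Set.ncard_insert_le _ _
    rw [Set.ncard_singleton] at h6
    omega
  by_cases c : ∃ a : A, a ≠ 1 ∧ a * a = 1
  · obtain ⟨a, ha, haa⟩ := c
    obtain ⟨a', h1, h2, h3⟩ := out 1 a 1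
    by_cases c' : a = a' * a'
    · -- `a'` has order four
      refine ⟨a', a'⁻¹, h1, inv_ne_one.2 h1, ?_, ?_, ?_⟩
      · intro e
        apply ha
        rw [c']
        nth_rewrite 1 [e]
        group
      · intro e
        have : a' * a' * a' = 1 := by rw [← e]; group
        rw [← c'] at this
        have h4 : a' = a⁻¹ := (eq_inv_of_mul_eq_one_right this)
        have h5 : a⁻¹ = a := inv_eq_of_mul_eq_one_left haa
        exact h2 (h4.trans h5)
      · intro e
        have : a' * (a' * a') = 1 := by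
          nth_rewrite 1 [e]
          group
        rw [← c'] at this
        have h4 : a' = a⁻¹ := (eq_inv_of_mul_eq_one_left this)
        have h5 : a⁻¹ = a := inv_eq_of_mul_eq_one_left haa
        exact h2 (h4.trans h5)
    · refine ⟨a, a', ha, h1, fun e => h2 e.symm, ?_, c'⟩
      rw [haa]
      exact h1
  · push Not at c
    obtain ⟨a, ha, _, _⟩ := out 1 1 1
    obtain ⟨a', h1, h2, h3⟩ := out 1 a (a * a)
    by_cases c' : a = a' * a'
    · -- take `a` and its inverse if the order of `a` is not three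
      by_cases c3 : a * a * a = 1
      · exfalso
        -- a' has a' * a' = a, a' ^ 6 = 1, so a' ^ 3 = 1 and a' = a⁻¹ = a * a
        have h6 : (a' * a' * a') * (a' * a' * a') = 1 := by
          have : (a' * a' * a') * (a' * a' * a') = (a' * a') * (a' * a') * (a' * a') := by group
          rw [this, ← c']
          exact c3
        have h7 : a' * a' * a' = 1 := by
          by_contra hne
          exact c _ hne h6
        rw [← c'] at h7
        have h8 : a * (a * a) = 1 := by rw [← mul_assoc]; exact c3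
        exact h3 (mul_left_cancel (h7.trans h8.symm))
      · refine ⟨a, a⁻¹, ha, inv_ne_one.2 ha, ?_, ?_, ?_⟩
        · intro e
          apply c a ha
          nth_rewrite 1 [e]
          group
        · intro e
          apply c3
          rw [← e]; group
        · intro e
          apply c3
          nth_rewrite 1 [e]
          group
    · exact ⟨a, a', ha, h1, fun e => h2 e.symm, h3, c'⟩

end Pool.Agent.H359.KX
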